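import Mathlib
import Pool.Agent.U260.GZ.Stm

/-!
# Project GZ, package LD: the derivatives of `log log (1 + t/m)`

With `k = 1 / log (1 + t/m)` the derivative of order `j + 1` is
`(-1)^j Q_j(k) / (m + t)^(j+1)`, where `Q_0 = X` and `Q_(j+1) = (j+1) Q_j + X² Q_j'` are polynomials
with coefficients in `ℕ`.
-/

set_option autoImplicit false

namespace Pool.Agent.U72.GZ

open Polynomial Set
open Pool.Agent.N879.GD Pool.Agent.U260.GZ

/-- the polynomials of the derivatives -/
noncomputable def Q : ℕ → ℕ[X]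
  | 0 => X
  | j + 1 => C (j + 1) * Q j + X ^ 2 * derivative (Q j)

lemma aeval_nonneg (p : ℕ[X]) {k : ℝ} (hk : 0 ≤ k) : 0 ≤ aeval k p := by
  rw [aeval_eq_sum_range]
  refine Finset.sum_nonneg fun i _ => ?_
  rw [nsmul_eq_mul]
  positivity

lemma aeval_mono (p : ℕ[X]) {k l : ℝ} (hk : 0 ≤ k) (hkl : k ≤ l) : aeval k p ≤ aeval l p := by
  rw [aeval_eq_sum_range, aeval_eq_sum_range]
  refine Finset.sum_le_sum fun i _ => ?_
  rw [nsmul_eq_mul, nsmul_eq_mul]
  gcongr

lemma aeval_scale (S : ℕ[X]) (n : ℕ) (hn : S.natDegree ≤ n) {k r : ℝ} (hk : 0 ≤ k) (hr : 0 ≤ r)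
    (hr1 : r ≤ 1) (hkr : k * r ≤ 1) : aeval k S * r ^ n ≤ aeval (1 : ℝ) S := by
  rw [aeval_eq_sum_range' (Nat.lt_succ_of_le hn), aeval_eq_sum_range' (Nat.lt_succ_of_le hn),
    Finset.sum_mul]
  refine Finset.sum_le_sum fun i hi => ?_
  have hi' : i ≤ n := Nat.lt_succ_iff.1 (Finset.mem_range.1 hi)
  rw [nsmul_eq_mul, nsmul_eq_mul, one_pow, mul_one]
  have h1 : k ^ i * r ^ n ≤ 1 := by
    have e : k ^ i * r ^ n = (k * r) ^ i * r ^ (n - i) := by
      rw [mul_pow, mul_assoc, ← pow_add, Nat.add_sub_cancel' hi']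
    rw [e]
    exact mul_le_one₀ (pow_le_one₀ (by positivity) hkr) (by positivity) (pow_le_one₀ hr hr1)
  calc (S.coeff i : ℝ) * k ^ i * r ^ n = (S.coeff i : ℝ) * (k ^ i * r ^ n) := by ring
    _ ≤ (S.coeff i : ℝ) * 1 := by gcongr
    _ = S.coeff i := mul_one _

lemma Q_lead (j : ℕ) : ∃ S : ℕ[X], Q j = X ^ (j + 1) + S := by
  induction j with
  | zero => exact ⟨0, by simp [Q]⟩
  | succ j ih =>
    obtain ⟨S, hS⟩ := ih
    refine ⟨C (j + 1) * Q j + (C j * X ^ (j + 2) + X ^ 2 * derivative S), ?_⟩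
    show C (j + 1) * Q j + X ^ 2 * derivative (Q j) = _
    have h : derivative (Q j) = C (j + 1) * X ^ j + derivative S := by
      rw [hS, derivative_add, derivative_X_pow]
      simp
    rw [h]
    have h2 : (C (j + 1) : ℕ[X]) = C j + 1 := by simp
    rw [h2]
    ring

lemma Q_low (j : ℕ) : ∃ S : ℕ[X], Q j = X + S := by
  induction j with
  | zero => exact ⟨0, by simp [Q]⟩
  | succ j ih =>
    obtain ⟨S, hS⟩ := ih
    refine ⟨C j * X + C (j + 1) * S + X ^ 2 * derivative (Q j), ?_⟩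
    show C (j + 1) * Q j + X ^ 2 * derivative (Q j) = _
    have h2 : (C (j + 1) : ℕ[X]) = C j + 1 := by simp
    have h3 : (C (j + 1) : ℕ[X]) * Q j = X + (C j * X + C (j + 1) * S) := by
      rw [hS, h2]
      ring
    rw [h3]
    ring

lemma Q_div (j : ℕ) : ∃ S : ℕ[X], Q j = X * S ∧ S.natDegree ≤ j := by
  induction j with
  | zero => exact ⟨1, by simp [Q]⟩
  | succ j ih =>
    obtain ⟨S, hS, hd⟩ := ih
    refine ⟨C (j + 1) * S + X * (S + X * derivative S), ?_, ?_⟩
    · show C (j + 1) * Q j + X ^ 2 * derivative (Q j) = _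
      rw [hS, derivative_mul, derivative_X]
      ring
    · refine (natDegree_add_le _ _).trans (max_le ?_ ?_)
      · exact (natDegree_C_mul_le _ _).trans (by omega)
      · refine (natDegree_mul_le).trans ?_
        have h1 : (S + X * derivative S).natDegree ≤ j := by
          refine (natDegree_add_le _ _).trans (max_le hd ?_)
          rcases Nat.eq_zero_or_pos S.natDegree with h0 | h0
          · have : derivative S = 0 := by
              rw [eq_C_of_natDegree_eq_zero h0, derivative_C]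
            rw [this]
            simp
          · refine (natDegree_mul_le).trans ?_
            have h2 := natDegree_derivative_le S
            have h3 : (X : ℕ[X]).natDegree ≤ 1 := natDegree_X_le
            omega
        have h3 : (X : ℕ[X]).natDegree ≤ 1 := natDegree_X_le
        omega

/-- the functions -/
noncomputable def ph (m : ℕ) (κ : ℝ) : ℕ → ℝ → ℝ
  | 0, t => Real.log (Real.log (1 + t / m)) / κ
  | j + 1, t => (-1) ^ j * aeval ((Real.log (1 + t / m))⁻¹) (Q j) / (m + t) ^ (j + 1) / κ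

lemma deriv_L (m : ℕ) (hm : 1 ≤ m) (t : ℝ) (ht : 0 < t) :
    HasDerivAt (fun t : ℝ => Real.log (1 + t / m)) (1 / (m + t)) t := by
  have hm' : (0 : ℝ) < m := by exact_mod_cast hm
  have h1 : HasDerivAt (fun t : ℝ => 1 + t / m) (1 / m) t :=
    ((hasDerivAt_id t).div_const (m : ℝ)).const_add 1
  have h2 := h1.log (by positivity)
  convert h2 using 1
  field_simp

lemma L_pos (m : ℕ) (hm : 1 ≤ m) (t : ℝ) (ht : 0 < t) : 0 < Real.log (1 + t / m) := by
  have hm' : (0 : ℝ) < m := by exact_mod_cast hm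
  exact Real.log_pos (by linarith [div_pos ht hm'])

lemma ph_deriv (m : ℕ) (hm : 1 ≤ m) (κ : ℝ) (j : ℕ) (t : ℝ) (ht : 0 < t) :
    HasDerivAt (ph m κ j) (ph m κ (j + 1) t) t := by
  have hm' : (0 : ℝ) < m := by exact_mod_cast hm
  have hL := deriv_L m hm t ht
  have hLp := L_pos m hm t ht
  have hD : (m : ℝ) + t ≠ 0 := by positivity
  cases j with
  | zero =>
    have h1 := (hL.log hLp.ne').div_const κ
    have e : ph m κ (0 + 1) t = 1 / (m + t) / Real.log (1 + t / m) / κ := by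
      show (-1) ^ 0 * aeval ((Real.log (1 + t / m))⁻¹) (Q 0) / (m + t) ^ (0 + 1) / κ = _
      have : aeval ((Real.log (1 + t / m))⁻¹) (Q 0) = (Real.log (1 + t / m))⁻¹ := by
        simp [Q]
      rw [this, zero_add, pow_one, pow_zero, one_mul]
      field_simp
    rw [e]
    exact h1
  | succ j =>
    have hK : HasDerivAt (fun t : ℝ => (Real.log (1 + t / m))⁻¹)
        (-(1 / (m + t)) / Real.log (1 + t / m) ^ 2) t := hL.inv hLp.ne'
    have hA : HasDerivAt (fun t : ℝ => aeval ((Real.log (1 + t / m))⁻¹) (Q j))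
        (aeval ((Real.log (1 + t / m))⁻¹) (derivative (Q j)) *
          (-(1 / (m + t)) / Real.log (1 + t / m) ^ 2)) t :=
      ((Q j).hasDerivAt_aeval _).comp t hK
    have hDj : HasDerivAt (fun t : ℝ => ((m : ℝ) + t) ^ (j + 1)) ((j + 1 : ℕ) * ((m : ℝ) + t) ^ j) t := by
      have := ((hasDerivAt_id t).const_add (m : ℝ)).fun_pow (j + 1)
      simpa using this
    have h1 := (((hA.const_mul ((-1 : ℝ) ^ j)).div hDj (pow_ne_zero _ hD)).div_const κ)
    have e : ph m κ (j + 1 + 1) t = (((-1) ^ j * (aeval ((Real.log (1 + t / m))⁻¹) (derivative (Q j)) *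
          (-(1 / (m + t)) / Real.log (1 + t / m) ^ 2))) * ((m : ℝ) + t) ^ (j + 1) -
          ((-1) ^ j * aeval ((Real.log (1 + t / m))⁻¹) (Q j)) * ((j + 1 : ℕ) * ((m : ℝ) + t) ^ j)) /
          (((m : ℝ) + t) ^ (j + 1)) ^ 2 / κ := by
      show (-1) ^ (j + 1) * aeval ((Real.log (1 + t / m))⁻¹) (Q (j + 1)) /
        (m + t) ^ (j + 1 + 1) / κ = _
      have e2 : aeval ((Real.log (1 + t / m))⁻¹) (Q (j + 1)) =
          (j + 1 : ℕ) * aeval ((Real.log (1 + t / m))⁻¹) (Q j) +
          ((Real.log (1 + t / m))⁻¹) ^ 2 * aeval ((Real.log (1 + t / m))⁻¹) (derivative (Q j)) := by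
        show aeval _ (C (j + 1) * Q j + X ^ 2 * derivative (Q j)) = _
        rw [map_add, map_mul, map_mul, map_pow, aeval_X, aeval_C]
        simp
      rw [e2]
      congr 1
      generalize aeval ((Real.log (1 + t / m))⁻¹) (derivative (Q j)) = a'
      generalize aeval ((Real.log (1 + t / m))⁻¹) (Q j) = a
      have hL0 : Real.log (1 + t / m) ≠ 0 := hLp.ne'
      generalize Real.log (1 + t / m) = l at hL0
      rw [div_eq_div_iff (pow_ne_zero _ hD) (pow_ne_zero _ (pow_ne_zero _ hD))]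
      field_simp
      ring
    rw [e]
    exact h1

theorem t_LD : S_LD := by
  intro M
  refine ⟨(1 / 18) ^ (M + 1), ∑ i ∈ Finset.range M, aeval (1 : ℝ) (Q i), by positivity,
    fun m R hm hR => ⟨ph m (kap m R), fun t _ => rfl, fun j _ t ht => ?_, fun j hj hjM t ht => ?_⟩⟩
  · have hR' : (1 : ℝ) ≤ R := by exact_mod_cast hR
    exact ph_deriv m hm _ j t (by linarith [ht.1])
  · have hR' : (1 : ℝ) ≤ R := by exact_mod_cast hR
    have hm' : (1 : ℝ) ≤ m := by exact_mod_cast hm
    have hm0 : (0 : ℝ) < m := by linarith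
    have hR0 : (0 : ℝ) < R := by linarith
    obtain ⟨i, rfl⟩ : ∃ i, j = i + 1 := ⟨j - 1, by omega⟩
    have ht0 : 0 < t := by linarith [ht.1]
    obtain ⟨ht1, ht2⟩ := ht
    have hD : (0 : ℝ) < m + t := by positivity
    set L : ℝ := Real.log (1 + t / m) with hL
    set LR : ℝ := Real.log (1 + (R : ℝ) / m) with hLR
    have hLp : 0 < L := L_pos m hm t ht0
    have hLRp : 0 < LR := L_pos m hm R hR0
    set ρ : ℝ := (R : ℝ) / (m + R) with hρ
    have hρ0 : 0 < ρ := by positivity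
    have hρ1 : ρ ≤ 1 := by
      rw [hρ, div_le_one (by positivity)]
      linarith
    have hkap : kap m R = ρ * LR⁻¹ := by
      show (R : ℝ) / (m + R) / Real.log (1 + (R : ℝ) / m) = _
      rw [div_eq_mul_inv _ (Real.log _)]
    have hκ0 : 0 < kap m R := by
      rw [hkap]
      positivity
    have hκ1 : LR⁻¹ * ρ ≤ 1 := by
      have h1 : ρ ≤ LR := by
        have h2 := Real.one_sub_inv_le_log_of_pos (show 0 < 1 + (R : ℝ) / m by positivity)
        have h3 : 1 - (1 + (R : ℝ) / m)⁻¹ = ρ := by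
          rw [hρ]
          field_simp
          ring
        rw [h3] at h2
        exact h2
      rw [inv_mul_le_iff₀ hLRp]
      linarith
    -- comparison of the logarithms
    have hL1 : LR ≤ L := by
      apply Real.log_le_log (by positivity)
      gcongr
    have hL3 : L ≤ 3 * LR := by
      have h1 : (3 : ℝ) * LR = Real.log ((1 + (R : ℝ) / m) ^ 3) := by
        rw [Real.log_pow]
        norm_num
        rfl
      rw [h1]
      apply Real.log_le_log (by positivity)
      have h2 : t / m ≤ 3 * ((R : ℝ) / m) := by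
        rw [← mul_div_assoc]
        gcongr
      have h3 : 0 ≤ (R : ℝ) / m := by positivity
      nlinarith [pow_nonneg h3 2, pow_nonneg h3 3]
    have hk1 : L⁻¹ ≤ LR⁻¹ := inv_anti₀ hLRp hL1
    have hk2 : LR⁻¹ / 3 ≤ L⁻¹ := by
      rw [div_eq_mul_inv, ← mul_inv, mul_comm]
      exact inv_anti₀ hLp hL3
    have hr1 : (R : ℝ) / (m + t) ≤ ρ := by
      rw [hρ]
      gcongr
    have hr2 : ρ / 3 ≤ (R : ℝ) / (m + t) := by
      rw [hρ, div_div]
      apply div_le_div_of_nonneg_left hR0.le hD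
      nlinarith
    have hk0 : 0 < L⁻¹ := inv_pos.2 hLp
    have hkR0 : 0 < LR⁻¹ := inv_pos.2 hLRp
    have key : (-1) ^ (i + 1 + 1) * ph m (kap m R) (i + 1) t * (R : ℝ) ^ (i + 1) =
        aeval L⁻¹ (Q i) * ((R : ℝ) / (m + t)) ^ (i + 1) / kap m R := by
      show (-1) ^ (i + 1 + 1) * ((-1) ^ i * aeval ((Real.log (1 + t / m))⁻¹) (Q i) /
        (m + t) ^ (i + 1) / kap m R) * (R : ℝ) ^ (i + 1) = _
      rw [← hL, div_pow]
      have h1 : (-1 : ℝ) ^ (i + 1 + 1) * (-1) ^ i = 1 := by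
        rw [← pow_add]
        exact Even.neg_one_pow ⟨i + 1, by ring⟩
      calc (-1 : ℝ) ^ (i + 1 + 1) * ((-1) ^ i * aeval L⁻¹ (Q i) / (m + t) ^ (i + 1) / kap m R) *
            (R : ℝ) ^ (i + 1) = ((-1 : ℝ) ^ (i + 1 + 1) * (-1) ^ i) * (aeval L⁻¹ (Q i) *
              ((R : ℝ) ^ (i + 1) / (m + t) ^ (i + 1)) / kap m R) := by ring
        _ = _ := by rw [h1, one_mul]
    rw [key]
    constructor
    · -- lower bound
      have h0 : ((1 : ℝ) / 18) ^ (M + 1) ≤ (1 / 18) ^ (i + 1) :=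
        pow_le_pow_of_le_one (by norm_num) (by norm_num) (by omega)
      refine h0.trans ?_
      rw [le_div_iff₀ hκ0]
      have hrp : (0 : ℝ) ≤ ρ / 3 := by positivity
      have h1 : (ρ / 3) ^ (i + 1) ≤ ((R : ℝ) / (m + t)) ^ (i + 1) :=
        pow_le_pow_left₀ hrp hr2 _
      rcases le_total ((1 : ℝ) / 2) ρ with hc | hc
      · -- `ρ` is large
        obtain ⟨S, hS⟩ := Q_low i
        have h2 : LR⁻¹ / 3 ≤ aeval L⁻¹ (Q i) := by
          rw [hS, map_add, aeval_X]
          have := aeval_nonneg S hk0.le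
          linarith
        have h3 : LR⁻¹ / 3 * (ρ / 3) ^ (i + 1) ≤
            aeval L⁻¹ (Q i) * ((R : ℝ) / (m + t)) ^ (i + 1) :=
          mul_le_mul h2 h1 (by positivity) (aeval_nonneg _ hk0.le)
        refine le_trans ?_ h3
        rw [hkap]
        have h4 : LR⁻¹ / 3 * (ρ / 3) ^ (i + 1) = (ρ ^ i * (1 / 3) ^ (i + 2)) * (ρ * LR⁻¹) := by
          rw [div_pow, one_div, inv_pow]
          field_simp
          ring
        rw [h4]
        refine mul_le_mul_of_nonneg_right ?_ (by positivity)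
        have h5 : ((1 : ℝ) / 2) ^ i ≤ ρ ^ i := pow_le_pow_left₀ (by norm_num) hc i
        have h6 : ((1 : ℝ) / 18) ^ (i + 1) ≤ (1 / 2) ^ i * (1 / 3) ^ (i + 2) := by
          have e1 : ((1 : ℝ) / 18) ^ (i + 1) = (1 / 2) ^ i * (1 / 3) ^ (i + 2) * ((1 / 2) * (1 / 3) ^ i) := by
            have : (1 : ℝ) / 18 = (1 / 2) * (1 / 3) * (1 / 3) := by norm_num
            rw [this, mul_pow, mul_pow]
            ring
          rw [e1]
          have h7 : ((1 : ℝ) / 2) * (1 / 3) ^ i ≤ 1 := by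
            have : ((1 : ℝ) / 3) ^ i ≤ 1 := pow_le_one₀ (by norm_num) (by norm_num)
            linarith
          have h8 : (0 : ℝ) ≤ (1 / 2) ^ i * (1 / 3) ^ (i + 2) := by positivity
          nlinarith
        exact h6.trans (mul_le_mul_of_nonneg_right h5 (by positivity))
      · -- `ρ` is small
        have hκ2 : 1 / 2 ≤ kap m R := by
          have h2 : LR ≤ (R : ℝ) / m := by
            have := Real.log_le_sub_one_of_pos (show 0 < 1 + (R : ℝ) / m by positivity)
            linarith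
          have h3 : (m : ℝ) / R ≤ LR⁻¹ := by
            have := inv_anti₀ hLRp h2
            rwa [inv_div] at this
          rw [hkap]
          have h4 : ρ * ((m : ℝ) / R) ≤ ρ * LR⁻¹ := by gcongr
          refine le_trans ?_ h4
          have h5 : ρ * ((m : ℝ) / R) = 1 - ρ := by
            rw [hρ]
            field_simp
            ring
          rw [h5]
          linarith
        obtain ⟨S, hS⟩ := Q_lead i
        have h2 : (LR⁻¹ / 3) ^ (i + 1) ≤ aeval L⁻¹ (Q i) := by
          rw [hS, map_add, map_pow, aeval_X]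
          have := aeval_nonneg S hk0.le
          have h3 : (LR⁻¹ / 3) ^ (i + 1) ≤ L⁻¹ ^ (i + 1) :=
            pow_le_pow_left₀ (by positivity) hk2 _
          linarith
        have h3 : (LR⁻¹ / 3) ^ (i + 1) * (ρ / 3) ^ (i + 1) ≤
            aeval L⁻¹ (Q i) * ((R : ℝ) / (m + t)) ^ (i + 1) :=
          mul_le_mul h2 h1 (by positivity) (aeval_nonneg _ hk0.le)
        refine le_trans ?_ h3
        have h4 : (LR⁻¹ / 3) ^ (i + 1) * (ρ / 3) ^ (i + 1) =
            (kap m R ^ i * (1 / 9) ^ (i + 1)) * kap m R := by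
          rw [hkap, ← mul_pow]
          have : LR⁻¹ / 3 * (ρ / 3) = (ρ * LR⁻¹) * (1 / 9) := by ring
          rw [this, mul_pow]
          ring
        rw [h4]
        refine mul_le_mul_of_nonneg_right ?_ hκ0.le
        have h5 : ((1 : ℝ) / 2) ^ i ≤ kap m R ^ i := pow_le_pow_left₀ (by norm_num) hκ2 i
        have h6 : ((1 : ℝ) / 18) ^ (i + 1) ≤ (1 / 2) ^ i * (1 / 9) ^ (i + 1) := by
          have e1 : ((1 : ℝ) / 18) ^ (i + 1) = (1 / 2) ^ i * (1 / 9) ^ (i + 1) * (1 / 2) := by
            have : (1 : ℝ) / 18 = (1 / 2) * (1 / 9) := by norm_num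
            rw [this, mul_pow]
            ring
          rw [e1]
          have h8 : (0 : ℝ) ≤ (1 / 2) ^ i * (1 / 9) ^ (i + 1) := by positivity
          linarith
        exact h6.trans (mul_le_mul_of_nonneg_right h5 (by positivity))
    · -- upper bound
      have h0 : aeval (1 : ℝ) (Q i) ≤ ∑ i ∈ Finset.range M, aeval (1 : ℝ) (Q i) :=
        Finset.single_le_sum (f := fun i => aeval (1 : ℝ) (Q i))
          (fun i _ => aeval_nonneg _ zero_le_one) (Finset.mem_range.2 (by omega))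
      refine le_trans ?_ h0
      rw [div_le_iff₀ hκ0]
      obtain ⟨S, hS, hd⟩ := Q_div i
      have h1 : aeval L⁻¹ (Q i) * ((R : ℝ) / (m + t)) ^ (i + 1) ≤
          aeval LR⁻¹ (Q i) * ρ ^ (i + 1) :=
        mul_le_mul (aeval_mono _ hk0.le hk1) (pow_le_pow_left₀ (by positivity) hr1 _)
          (by positivity) (aeval_nonneg _ hkR0.le)
      refine h1.trans ?_
      have h2 := aeval_scale S i hd hkR0.le hρ0.le hρ1 hκ1
      rw [hS, map_mul, map_mul, aeval_X, aeval_X, one_mul, hkap]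
      calc LR⁻¹ * aeval LR⁻¹ S * ρ ^ (i + 1) = (aeval LR⁻¹ S * ρ ^ i) * (ρ * LR⁻¹) := by ring
        _ ≤ aeval (1 : ℝ) S * (ρ * LR⁻¹) := by gcongr

end Pool.Agent.U72.GZ
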